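import Pool.Agent.Lib.MP_815fa1_an.Final

/-!
# The zero count of radial Emden–Fowler solutions on hyperbolic space is nondecreasing

For every `n ≥ 2`, every `p > 1` and all `0 < α < β`, the solution with `u(0) = β` has at least as
many zeros in `(0, ∞)` (and in every interval `(0, T]`) as the solution with `u(0) = α`.
-/

namespace Pool.Agent.Results.MP_815fa1_an.ZeroMonotone

/-- `u` is a radial solution (as a function of the geodesic distance `r ≥ 0`) of
`-Δ u = |u| ^ (p - 1) u` on the `n`-dimensional hyperbolic space: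
`u(0) = α`, `u'(0) = 0` (derivative from the right), and for every `r > 0`
`u''(r) + (n - 1) coth(r) u'(r) + |u(r)| ^ (p - 1) u(r) = 0`. -/
def IsRadialSolution (n : ℕ) (p α : ℝ) (u : ℝ → ℝ) : Prop :=
  u 0 = α ∧ HasDerivWithinAt u 0 (Set.Ici 0) 0 ∧
    ∀ r : ℝ, 0 < r → DifferentiableAt ℝ u r ∧
      HasDerivAt (deriv u)
        (-(((n : ℝ) - 1) * (Real.cosh r / Real.sinh r) * deriv u r) - |u r| ^ (p - 1) * u r) r

/-- The set of zeros of `u` in `(0, ∞)`. -/
def zeroSet (u : ℝ → ℝ) : Set ℝ := {r : ℝ | 0 < r ∧ u r = 0}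

/-- The number of zeros of `u` in `(0, ∞)`, in `{0, 1, 2, ...} ∪ {∞}`. -/
noncomputable def zeroCount (u : ℝ → ℝ) : ℕ∞ := (zeroSet u).encard

/-- For every `n ≥ 2`, every `p > 1` and all `0 < α < β`, if `u`, `w` are the radial solutions with
`u(0) = α`, `w(0) = β`, then `w` has at least as many zeros as `u` in `(0, ∞)`, and also in every
interval `(0, T]`. -/
theorem result (n : ℕ) (hn : 2 ≤ n) (p : ℝ) (hp : 1 < p) (α β : ℝ) (hα : 0 < α) (hαβ : α < β)
    (u w : ℝ → ℝ) (hu : IsRadialSolution n p α u) (hw : IsRadialSolution n p β w) :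
    zeroCount u ≤ zeroCount w ∧
      ∀ T : ℝ, (zeroSet u ∩ Set.Iic T).encard ≤ (zeroSet w ∩ Set.Iic T).encard := by
  have hk : (0 : ℝ) < (n : ℝ) - 1 := by
    have : (2 : ℝ) ≤ n := by exact_mod_cast hn
    linarith
  have ha : 0 < (p - 1) / 2 := by linarith
  exact Pool.Agent.MP815fa1.zeros_le hk ha hα hαβ
    (Pool.Agent.MP815fa1.sol_of_radial hn hp hα hu.1 hu.2.1 hu.2.2)
    (Pool.Agent.MP815fa1.sol_of_radial hn hp (hα.trans hαβ) hw.1 hw.2.1 hw.2.2)

end Pool.Agent.Results.MP_815fa1_an.ZeroMonotone
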